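import Pool.Agent.Q168.RC.Ex
import Pool.Agent.Y718.FQ.Ring
import Pool.Agent.Y718.FQ.Emb

/-!
# Complex polynomial rings and varieties with rational curves of unbounded degree

Let `K = ℂ(t₁, …, t_n)`, `n ≥ 1`, and `R = ℂ[t₁, …, t_n]`. *Good sets* (`Good`) are sets of points
with coordinates in `K`: the least class which contains
* the sets `S` which contain rational curves over `K` of unbounded degree (`Curved`): for every `D`
  there is a rational curve over `K` with values in `S` such that each polynomial of degree at most
  `D` which vanishes on the curve vanishes on `S`;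
* affine spaces and smooth quartic double covers `w² = F(1, z₁, …, z_m)`, `w ≠ 0`, `m ≥ 2`;
and is closed under finite unions, finite products and dominated images.

(1) `R` is not a finite union of sets of values of rational functions over `K` at the points of good
sets.

(2) If a set of values of a rational function at the points of a good set is contained in `R`, then
it is finite. This holds also with `ℂ` replaced by any field of characteristic zero with at most
continuum many elements.

(3) Elliptic surfaces `D(s) y² = x³ + A(s) x + B(s)` over `K` with a point over `K(s)` whose abscissa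
has degree larger than `5/3 max(deg A, deg B)`, and all Kummer surfaces `f(s) y² = f(x)` with a
separable cubic polynomial `f = x³ + c x + d`, are good.
-/

set_option autoImplicit false

namespace Pool.Agent.Results.MP_4369f4_lc.RationalCurves

open MvPolynomial Cardinal Pool.Agent.Q168.RC

/-- The values of `p / q` at the points `x ∈ S` with `q(x) ≠ 0`. -/
def values {K : Type} [Field K] {σ : Type} (S : Set (σ → K)) (p q : MvPolynomial σ K) : Set K :=
  {t | ∃ x ∈ S, eval x q ≠ 0 ∧ t = eval x p / eval x q}

theorem result :
    -- (1) the polynomial ring is not a finite union of sets of values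
    (∀ (n : ℕ), 1 ≤ n → ∀ (l : ℕ) (σ : Fin l → Type)
      (S : ∀ i, Set (σ i → FractionRing (MvPolynomial (Fin n) ℂ))),
      (∀ i, Good (FractionRing (MvPolynomial (Fin n) ℂ)) (S i)) →
      ∀ p q : ∀ i, MvPolynomial (σ i) (FractionRing (MvPolynomial (Fin n) ℂ)),
      ⋃ i, values (S i) (p i) (q i) ≠ Set.range
        (algebraMap (MvPolynomial (Fin n) ℂ) (FractionRing (MvPolynomial (Fin n) ℂ)))) ∧
    -- (2) sets of values contained in the polynomial ring are finite
    (∀ (k : Type) [Field k] [CharZero k], #k ≤ continuum → ∀ (n : ℕ), 1 ≤ n →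
      ∀ (σ : Type) (S : Set (σ → FractionRing (MvPolynomial (Fin n) k))),
      Good (FractionRing (MvPolynomial (Fin n) k)) S →
      ∀ p q : MvPolynomial σ (FractionRing (MvPolynomial (Fin n) k)),
      values S p q ⊆ Set.range
        (algebraMap (MvPolynomial (Fin n) k) (FractionRing (MvPolynomial (Fin n) k))) →
      (values S p q).Finite) ∧
    -- (3) elliptic surfaces with a point of large degree over the rational function field
    (∀ (K : Type) [Field K] [CharZero K] (D A B u v s r : Polynomial K), D ≠ 0 →
      4 * A ^ 3 + 27 * B ^ 2 ≠ 0 → Pnt D A B u v s r →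
      5 * max A.natDegree B.natDegree < 3 * max u.natDegree v.natDegree →
      Good K (EllSurf D A B)) ∧
    (∀ (K : Type) [Field K] [CharZero K] (c d : K), 4 * c ^ 3 + 27 * d ^ 2 ≠ 0 →
      Good K {z : Fin 3 → K | z 0 ^ 3 + c * z 0 + d ≠ 0 ∧
        (z 0 ^ 3 + c * z 0 + d) * z 2 ^ 2 = z 1 ^ 3 + c * z 1 + d}) := by
  have main : ∀ (k : Type) [Field k] [CharZero k], #k ≤ continuum → ∀ (n : ℕ), 1 ≤ n →
      ∀ (σ : Type) (S : Set (σ → FractionRing (MvPolynomial (Fin n) k))),
      Good (FractionRing (MvPolynomial (Fin n) k)) S →
      ∀ p q : MvPolynomial σ (FractionRing (MvPolynomial (Fin n) k)),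
      values S p q ⊆ Set.range
        (algebraMap (MvPolynomial (Fin n) k) (FractionRing (MvPolynomial (Fin n) k))) →
      (values S p q).Finite := by
    intro k _ _ hk n hn σ S hS p q h
    obtain ⟨φ⟩ := Pool.Agent.Y718.FQ.emb_fr k hk (Fin n)
    have : CharZero (FractionRing (MvPolynomial (Fin n) k)) := charZero_of_injective_algebraMap
      (IsFractionRing.injective (MvPolynomial (Fin n) k) (FractionRing (MvPolynomial (Fin n) k)))
    have : Nonempty (Fin n) := ⟨⟨0, hn⟩⟩
    exact hS.values_finite (Pool.Agent.Y718.FQ.flat_poly (k := k) (κ := Fin n)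
      (K := FractionRing (MvPolynomial (Fin n) k))) φ p q fun t ht => h ht
  refine ⟨fun n hn l σ S hS p q heq => ?_, main, good_ell, good_kummer⟩
  have h1 : (⋃ i, values (S i) (p i) (q i)).Finite := by
    refine Set.finite_iUnion fun i => ?_
    refine main ℂ (Cardinal.mk_complex).le n hn (σ i) (S i) (hS i) (p i) (q i) ?_
    rw [← heq]
    exact Set.subset_iUnion (fun i => values (S i) (p i) (q i)) i
  rw [heq] at h1
  exact Set.infinite_range_of_injective (IsFractionRing.injective (MvPolynomial (Fin n) ℂ)
    (FractionRing (MvPolynomial (Fin n) ℂ))) h1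

end Pool.Agent.Results.MP_4369f4_lc.RationalCurves
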